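import Mathlib

/-!
# Involution systems, the right weak order and even meet involution systems (EMIS)

Basic definitions for the problem MP_e25dcb_al.
-/

namespace Pool.Agent.Lib.MP_e25dcb_al

variable {W : Type*} [Group W]

/-- A word `l` (a list of elements of `W`) is a reduced word over the alphabet `S` if all its
letters lie in `S` and no word over `S` with the same product is shorter. So `l` is a reduced
word for the element `l.prod`, and its length is the word length of `l.prod`. -/
def IsReducedWord (S : Set W) (l : List W) : Prop :=
  (∀ s ∈ l, s ∈ S) ∧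
    ∀ l' : List W, (∀ s ∈ l', s ∈ S) → l'.prod = l.prod → l.length ≤ l'.length

/-- The right weak order of `(W, S)`: `u ≤ v` iff some reduced word for `u` is a prefix of some
reduced word for `v`. -/
def WeakLE (S : Set W) (u v : W) : Prop :=
  ∃ l₁ l₂ : List W, IsReducedWord S l₁ ∧ IsReducedWord S (l₁ ++ l₂) ∧
    l₁.prod = u ∧ (l₁ ++ l₂).prod = v

/-- `m` is a greatest lower bound of `X` in the right weak order. -/
def IsMeet (S : Set W) (X : Set W) (m : W) : Prop :=
  (∀ x ∈ X, WeakLE S m x) ∧ ∀ w : W, (∀ x ∈ X, WeakLE S w x) → WeakLE S w m

/-- `j` is a least upper bound of `X` in the right weak order. -/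
def IsJoin (S : Set W) (X : Set W) (j : W) : Prop :=
  (∀ x ∈ X, WeakLE S x j) ∧ ∀ w : W, (∀ x ∈ X, WeakLE S x w) → WeakLE S j w

/-- `(W, S)` is an even meet involution system: `S` is a finite generating set of involutions,
there is a sign character (a homomorphism to `{1, -1}` sending every element of `S` to `-1`),
and every nonempty subset of `W` has a greatest lower bound in the right weak order. -/
structure IsEMIS (S : Set W) : Prop where
  finite : S.Finite
  involution : ∀ s ∈ S, s ≠ 1 ∧ s * s = 1
  generates : Subgroup.closure S = ⊤
  sign : ∃ ε : W →* ℤˣ, ∀ s ∈ S, ε s = -1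
  meets : ∀ X : Set W, X.Nonempty → ∃ m : W, IsMeet S X m

end Pool.Agent.Lib.MP_e25dcb_al
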