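import Pool.Agent.Lib.MP_e25dcb_al.Basic

/-!
# A group of order 16

The vertices of the 4-cube with a twisted addition. With the four unit vectors as generators its
Cayley graph is the 4-cube, so its weak order is the Boolean lattice.
-/

namespace Pool.Agent.Lib.MP_e25dcb_al

/-- The underlying set: the vertices of the 4-cube. -/
structure G16 where
  a : Bool
  a' : Bool
  b : Bool
  b' : Bool
deriving DecidableEq, Fintype

namespace G16

/-- twisted addition -/
def mul (x y : G16) : G16 where
  a := xor x.a (bif xor x.b x.b' then y.a' else y.a)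
  a' := xor x.a' (bif xor x.b x.b' then y.a else y.a')
  b := xor x.b (bif xor x.a x.a' then y.b' else y.b)
  b' := xor x.b' (bif xor x.a x.a' then y.b else y.b')

/-- inverse -/
def inv (x : G16) : G16 where
  a := bif xor x.b x.b' then x.a' else x.a
  a' := bif xor x.b x.b' then x.a else x.a'
  b := bif xor x.a x.a' then x.b' else x.b
  b' := bif xor x.a x.a' then x.b else x.b'

/-- neutral element -/
def one : G16 := ⟨false, false, false, false⟩

instance : Mul G16 := ⟨mul⟩
instance : Inv G16 := ⟨inv⟩
instance : One G16 := ⟨one⟩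

theorem mul_assoc' : ∀ x y z : G16, x * y * z = x * (y * z) := by decide +kernel
theorem one_mul' : ∀ x : G16, 1 * x = x := by decide
theorem mul_one' : ∀ x : G16, x * 1 = x := by decide
theorem inv_mul' : ∀ x : G16, x⁻¹ * x = 1 := by decide

instance : Group G16 where
  mul_assoc := mul_assoc'
  one_mul := one_mul'
  mul_one := mul_one'
  inv_mul_cancel := inv_mul'

/-- generators -/
def s : G16 := ⟨true, false, false, false⟩
def s' : G16 := ⟨false, true, false, false⟩
def t : G16 := ⟨false, false, true, false⟩
def t' : G16 := ⟨false, false, false, true⟩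

/-- the generating set: the four unit vectors -/
def S : Set G16 := {s, s', t, t'}

instance : DecidablePred (· ∈ S) := fun x =>
  decidable_of_iff (x = s ∨ x = s' ∨ x = t ∨ x = t') Iff.rfl

/-- Hamming weight -/
def wt (x : G16) : ℕ := x.a.toNat + x.a'.toNat + x.b.toNat + x.b'.toNat

theorem wt_mul_le : ∀ g : G16, g ∈ S → ∀ y : G16, wt (g * y) ≤ wt y + 1 := by decide
theorem exists_descent : ∀ x : G16, x ≠ 1 → ∃ g : G16, g ∈ S ∧ wt (g * x) + 1 = wt x := by
  decide
theorem gen_sq : ∀ g : G16, g ∈ S → g ≠ 1 ∧ g * g = 1 := by decide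

theorem wt_prod_le (l : List G16) (hl : ∀ g ∈ l, g ∈ S) : wt l.prod ≤ l.length := by
  induction l with
  | nil => simp; decide
  | cons g l ih =>
    have h1 := ih (fun x hx => hl x (List.mem_cons_of_mem _ hx))
    have h2 := wt_mul_le g (hl g (List.mem_cons_self)) l.prod
    simp only [List.prod_cons, List.length_cons]
    omega

theorem exists_word : ∀ (n : ℕ) (x : G16), wt x = n →
    ∃ l : List G16, (∀ g ∈ l, g ∈ S) ∧ l.prod = x ∧ l.length = n := by
  intro n
  induction n with
  | zero =>
    intro x hx
    have : x = 1 := by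
      by_contra h
      obtain ⟨g, _, hg⟩ := exists_descent x h
      omega
    exact ⟨[], by simp, by simp [this], rfl⟩
  | succ n ih =>
    intro x hx
    have hx1 : x ≠ 1 := by
      rintro rfl
      have : wt (1 : G16) = 0 := by decide
      omega
    obtain ⟨g, hgS, hg⟩ := exists_descent x hx1
    obtain ⟨l, hl, hp, hlen⟩ := ih (g * x) (by omega)
    refine ⟨g :: l, ?_, ?_, by simp [hlen]⟩
    · intro y hy
      rcases List.mem_cons.1 hy with rfl | hy
      · exact hgS
      · exact hl y hy
    · rw [List.prod_cons, hp, ← mul_assoc, (gen_sq g hgS).2, one_mul]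

theorem isReducedWord_iff (l : List G16) :
    IsReducedWord S l ↔ (∀ g ∈ l, g ∈ S) ∧ l.length = wt l.prod := by
  constructor
  · rintro ⟨h1, h2⟩
    refine ⟨h1, le_antisymm ?_ (wt_prod_le l h1)⟩
    obtain ⟨l', hl', hp, hlen⟩ := exists_word _ l.prod rfl
    have := h2 l' hl' hp
    omega
  · rintro ⟨h1, h2⟩
    refine ⟨h1, fun l' hl' hp => ?_⟩
    have := wt_prod_le l' hl'
    rw [hp] at this
    omega

theorem wt_mul_le' (x y : G16) : wt (x * y) ≤ wt x + wt y := by
  obtain ⟨l, hl, hp, hlen⟩ := exists_word _ x rfl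
  obtain ⟨l', hl', hp', hlen'⟩ := exists_word _ y rfl
  have := wt_prod_le (l ++ l') (by
    intro g hg
    rcases List.mem_append.1 hg with h | h
    · exact hl g h
    · exact hl' g h)
  rw [List.prod_append, hp, hp', List.length_append, hlen, hlen'] at this
  exact this

theorem weakLE_iff (u v : G16) : WeakLE S u v ↔ wt u + wt (u⁻¹ * v) = wt v := by
  constructor
  · rintro ⟨l₁, l₂, h1, h2, hu, hv⟩
    rw [isReducedWord_iff] at h1 h2
    rw [hu] at h1
    rw [hv] at h2
    have hp2 : l₂.prod = u⁻¹ * v := by
      rw [← hv, List.prod_append, hu]; group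
    have h3 := wt_prod_le l₂ (fun g hg => h2.1 g (List.mem_append_right _ hg))
    rw [hp2] at h3
    have h4 : wt v ≤ wt u + wt (u⁻¹ * v) := by
      have := wt_mul_le' u (u⁻¹ * v)
      rwa [mul_inv_cancel_left] at this
    have h5 : l₁.length + l₂.length = wt v := by
      rw [← List.length_append]; exact h2.2
    have h6 := h1.2
    omega
  · intro h
    obtain ⟨l₁, hl₁, hp₁, hlen₁⟩ := exists_word _ u rfl
    obtain ⟨l₂, hl₂, hp₂, hlen₂⟩ := exists_word _ (u⁻¹ * v) rfl
    have hprod : (l₁ ++ l₂).prod = v := by
      rw [List.prod_append, hp₁, hp₂]; group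
    refine ⟨l₁, l₂, ?_, ?_, hp₁, hprod⟩
    · rw [isReducedWord_iff, hp₁]
      exact ⟨hl₁, hlen₁⟩
    · rw [isReducedWord_iff, hprod, List.length_append, hlen₁, hlen₂]
      refine ⟨?_, h⟩
      intro g hg
      rcases List.mem_append.1 hg with h | h
      · exact hl₁ g h
      · exact hl₂ g h

/-- The coordinatewise order. -/
def BitLE (u v : G16) : Prop :=
  (u.a = true → v.a = true) ∧ (u.a' = true → v.a' = true) ∧
    (u.b = true → v.b = true) ∧ (u.b' = true → v.b' = true)

instance (u v : G16) : Decidable (BitLE u v) := by unfold BitLE; infer_instance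

theorem wt_iff_bitLE : ∀ u v : G16, wt u + wt (u⁻¹ * v) = wt v ↔ BitLE u v := by
  decide +kernel

theorem weakLE_iff_bitLE (u v : G16) : WeakLE S u v ↔ BitLE u v :=
  (weakLE_iff u v).trans (wt_iff_bitLE u v)

open Classical in
theorem exists_meet (X : Set G16) : ∃ m : G16, IsMeet S X m := by
  refine ⟨⟨decide (∀ x ∈ X, x.a = true), decide (∀ x ∈ X, x.a' = true),
    decide (∀ x ∈ X, x.b = true), decide (∀ x ∈ X, x.b' = true)⟩, ?_, ?_⟩
  · intro x hx
    rw [weakLE_iff_bitLE]
    refine ⟨?_, ?_, ?_, ?_⟩ <;>
    · intro h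
      simp only [decide_eq_true_eq] at h
      exact h x hx
  · intro w hw
    simp only [weakLE_iff_bitLE] at hw ⊢
    refine ⟨?_, ?_, ?_, ?_⟩ <;> intro h <;> simp only [decide_eq_true_eq] <;> intro x hx
    · exact (hw x hx).1 h
    · exact (hw x hx).2.1 h
    · exact (hw x hx).2.2.1 h
    · exact (hw x hx).2.2.2 h

/-- The sign character: parity of the Hamming weight. -/
def sgn (x : G16) : ℤˣ := bif xor (xor x.a x.a') (xor x.b x.b') then -1 else 1

theorem sgn_mul : ∀ x y : G16, sgn (x * y) = sgn x * sgn y := by decide +kernel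

theorem isEMIS : IsEMIS S where
  finite := Set.toFinite _
  involution := gen_sq
  generates := by
    rw [eq_top_iff]
    intro x _
    obtain ⟨l, hl, hp, _⟩ := exists_word _ x rfl
    rw [← hp]
    exact list_prod_mem (fun g hg => Subgroup.subset_closure (hl g hg))
  sign := by
    refine ⟨{ toFun := sgn, map_one' := by decide, map_mul' := sgn_mul }, ?_⟩
    have : ∀ g : G16, g ∈ S → sgn g = -1 := by decide
    exact this
  meets := fun X _ => exists_meet X

/-- The subgroup generated by `s` and `t`, given by its eight elements. -/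
def inH (x : G16) : Bool :=
  decide (x = 1 ∨ x = s ∨ x = s * t ∨ x = s * t * s ∨ x = s * t * s * t ∨ x = t ∨ x = t * s ∨
    x = t * s * t)

def H : Subgroup G16 where
  carrier := {x | inH x = true}
  mul_mem' := by
    have : ∀ x y : G16, inH x = true → inH y = true → inH (x * y) = true := by decide +kernel
    intro x y hx hy
    exact this x y hx hy
  one_mem' := by
    show inH 1 = true
    decide
  inv_mem' := by
    have : ∀ x : G16, inH x = true → inH x⁻¹ = true := by decide
    intro x hx
    exact this x hx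

theorem mem_H (x : G16) : x ∈ H ↔ inH x = true := Iff.rfl

theorem closure_le_H : Subgroup.closure {s, t} ≤ H := by
  rw [Subgroup.closure_le]
  rintro x (rfl | rfl)
  · show inH s = true
    decide
  · show inH t = true
    decide

end G16

end Pool.Agent.Lib.MP_e25dcb_al
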